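import Pool.Agent.Q4.SPC.Stm3
import Pool.Agent.Q4.GLC.Den

/-!
# GI: denominators for the groups of symplectic similitudes (project SPC of helper4)
-/

open IsDedekindDomain NumberField Matrix Q4.GLC

namespace Pool.Agent.Q121.SPC

open Q4.SPC

theorem gi : Q4.SPC.GI := by
  intro F _ _ n g N hN
  classical
  choose d hd1 hd2 using fun a : Af F => ade_den a
  -- the matrix and its inverse
  obtain ⟨A, hA⟩ : ∃ A : Matrix (Fin n ⊕ Fin n) (Fin n ⊕ Fin n) (Af F), A = g.1.1.1 := ⟨_, rfl⟩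
  obtain ⟨B, hB⟩ : ∃ B : Matrix (Fin n ⊕ Fin n) (Fin n ⊕ Fin n) (Af F), B = g.1.1⁻¹.1 := ⟨_, rfl⟩
  have hAB : A * B = 1 := by
    rw [hA, hB, ← Units.val_mul, mul_inv_cancel, Units.val_one]
  -- the common denominator
  let D : ℕ := (∏ i : Fin n ⊕ Fin n, ∏ j : Fin n ⊕ Fin n, d (A i j)) *
    (∏ i : Fin n ⊕ Fin n, ∏ j : Fin n ⊕ Fin n, d (B i j))
  have hD : 1 ≤ D := Nat.succ_le_of_lt (Nat.mul_pos
    (Finset.prod_pos fun i _ => Finset.prod_pos fun j _ => hd1 _)
    (Finset.prod_pos fun i _ => Finset.prod_pos fun j _ => hd1 _))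
  have hmulle : ∀ (a b : ℕ) (x : Af F) (v : Pl F), Valued.v ((a : Af F) v * x v) ≤ 1 →
      a ∣ b → Valued.v ((b : Af F) v * x v) ≤ 1 := by
    rintro a b x v h ⟨e, rfl⟩
    have h1 : Valued.v (((a * e : ℕ) : Af F) v * x v) =
        Valued.v ((e : Af F) v) * Valued.v ((a : Af F) v * x v) := by
      rw [natCast_app, natCast_app, natCast_app, Nat.cast_mul, ← map_mul]
      congr 1
      ring
    rw [h1]
    calc _ ≤ (1 : WithZero (Multiplicative ℤ)) * 1 := mul_le_mul' (val_nat_le_one _ v) h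
      _ = 1 := one_mul 1
  have hg1 : ∀ i j v, Valued.v ((D : Af F) v * (A i j) v) ≤ 1 := fun i j v =>
    hmulle _ _ _ _ (hd2 _ v) (Dvd.dvd.mul_right
      ((Finset.dvd_prod_of_mem (fun j => d (A i j)) (Finset.mem_univ j)).trans
        (Finset.dvd_prod_of_mem (fun i => ∏ j : Fin n ⊕ Fin n, d (A i j))
          (Finset.mem_univ i))) _)
  have hg2 : ∀ i j v, Valued.v ((D : Af F) v * (B i j) v) ≤ 1 := fun i j v =>
    hmulle _ _ _ _ (hd2 _ v) (Dvd.dvd.mul_left
      ((Finset.dvd_prod_of_mem (fun j => d (B i j)) (Finset.mem_univ j)).trans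
        (Finset.dvd_prod_of_mem (fun i => ∏ j : Fin n ⊕ Fin n, d (B i j))
          (Finset.mem_univ i))) _)
  have hDN : ∀ v : Pl F, Valued.v (((N * D ^ 2 : ℕ) : Af F) v) =
      Valued.v ((N : Af F) v) * (Valued.v ((D : Af F) v) * Valued.v ((D : Af F) v)) := by
    intro v
    rw [natCast_app, natCast_app, natCast_app, Nat.cast_mul, Nat.cast_pow, map_mul, map_pow, sq]
  have key : ∀ X : Matrix (Fin n ⊕ Fin n) (Fin n ⊕ Fin n) (Af F), DvdS (N * D ^ 2) X →
      DvdS N (A * X * B) := by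
    intro X hX i j
    rw [Matrix.mul_apply]
    refine DvdN.sum _ fun l _ => ?_
    rw [Matrix.mul_apply, Finset.sum_mul]
    refine DvdN.sum _ fun m _ => ?_
    intro v
    have h1 := hg1 i m v
    have h2 := hg2 l j v
    have h3 := hX m l v
    change Valued.v (A i m v * X m l v * B l j v) ≤ _
    rw [map_mul] at h1 h2
    rw [map_mul, map_mul]
    rw [hDN] at h3
    calc Valued.v (A i m v) * Valued.v (X m l v) * Valued.v (B l j v)
        ≤ Valued.v (A i m v) * (Valued.v ((N : Af F) v) * (Valued.v ((D : Af F) v) *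
            Valued.v ((D : Af F) v))) * Valued.v (B l j v) := by gcongr
      _ = Valued.v ((N : Af F) v) * (Valued.v ((D : Af F) v) * Valued.v (A i m v)) *
            (Valued.v ((D : Af F) v) * Valued.v (B l j v)) := by
          ac_rfl
      _ ≤ Valued.v ((N : Af F) v) * 1 * 1 := by gcongr
      _ = _ := by rw [mul_one, mul_one]
  have key2 : ∀ a : Af F, DvdN (N * D ^ 2) a → DvdN N a := by
    intro a ha v
    have h3 := ha v
    rw [hDN] at h3
    have hD1 : Valued.v ((D : Af F) v) ≤ 1 := val_nat_le_one _ v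
    calc Valued.v (a v) ≤ Valued.v ((N : Af F) v) * (Valued.v ((D : Af F) v) *
            Valued.v ((D : Af F) v)) := h3
      _ ≤ Valued.v ((N : Af F) v) * (1 * 1) := by gcongr
      _ = _ := by rw [mul_one, mul_one]
  refine ⟨N * D ^ 2, Nat.mul_pos hN (Nat.pow_pos hD), Dvd.intro _ rfl, fun u hu => ?_⟩
  obtain ⟨⟨h1, h2⟩, h3, h4⟩ := mem_UG.1 hu
  have conj : ∀ x : GSp n (Af F), DvdS (N * D ^ 2) (x.1.1.1 - 1) →
      DvdS N ((g * x * g⁻¹).1.1.1 - 1) := by
    intro x hx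
    have e0 : (g * x * g⁻¹).1.1.1 = A * x.1.1.1 * B := by
      rw [hA, hB]
      rfl
    have e1 : (g * x * g⁻¹).1.1.1 - 1 = A * (x.1.1.1 - 1) * B := by
      rw [e0, mul_sub, sub_mul, mul_one, hAB]
    rw [e1]
    exact key _ hx
  have snd : ∀ x : GSp n (Af F), (g * x * g⁻¹).1.2 = x.1.2 := by
    intro x
    have e0 : (g * x * g⁻¹).1.2 = g.1.2 * x.1.2 * g.1.2⁻¹ := rfl
    rw [e0, mul_comm g.1.2, mul_inv_cancel_right]
  refine mem_UG.2 ⟨⟨conj u h1, ?_⟩, ?_, ?_⟩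
  · have e2 : (g * u * g⁻¹).1.1⁻¹.1 = (g * u⁻¹ * g⁻¹).1.1.1 := by
      have e3 : (g * u * g⁻¹)⁻¹ = g * u⁻¹ * g⁻¹ := by group
      rw [← e3]
      rfl
    rw [e2]
    exact conj u⁻¹ h2
  · rw [snd u]
    exact key2 _ h3
  · rw [snd u]
    exact key2 _ h4

end Pool.Agent.Q121.SPC
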